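import Mathlib

set_option autoImplicit false
set_option maxRecDepth 100000

namespace Pool.Agent.Results.MP_d4f5ca_al.Cex

/-- `R` is right semidistributive: a direct sum of right ideals `D i`, each with a distributive
lattice of submodules. -/
def SD (R : Type) [Ring R] : Prop := ∃ (ι : Type) (D : ι → Submodule Rᵐᵒᵖ R),
  iSupIndep D ∧ ⨆ i, D i = ⊤ ∧
  ∀ i, ∀ F ≤ D i, ∀ G ≤ D i, ∀ H ≤ D i, F ⊓ (G ⊔ H) = F ⊓ G ⊔ F ⊓ H

/-- `R` is the skew Laurent series ring over `A` and `φ`: its additive group is that of Laurent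
series, and `(a x^i)(b x^j) = a φ^i(b) x^(i+j)`. -/
def IsSL (A : Type) [Ring A] (φ : RingAut A) (R : Type) [Ring R] : Prop :=
  ∃ c : R ≃+ LaurentSeries A, ∀ (f g : R) (n : ℤ),
    (c (f * g)).coeff n = ∑ᶠ i : ℤ, (c f).coeff i * (φ ^ i) ((c g).coeff (n - i))

section model
variable {A : Type} [Ring A] (φ : RingAut A)

def op (i : ℤ) (a : A) : AddMonoid.End A :=
  (AddMonoidHom.mulLeft a).comp (φ ^ i : RingAut A).toAddMonoidHom

lemma op_apply (i : ℤ) (a v : A) : op φ i a v = a * (φ ^ i) v := rfl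

lemma sum_app {ι : Type} (s : Finset ι) (f : ι → AddMonoid.End A) (v : A) :
    (∑ i ∈ s, f i) v = ∑ i ∈ s, f i v := AddMonoidHom.finsetSum_apply f s v

def S : Subring (HahnSeries ℤ (AddMonoid.End A)) where
  carrier := {F | ∀ i v, F.coeff i v = F.coeff i 1 * (φ ^ i) v}
  mul_mem' := by
    intro F G hF hG i v
    simp only [HahnSeries.coeff_mul, sum_app, Finset.sum_mul]
    refine Finset.sum_congr rfl fun p hp => ?_
    obtain ⟨-, -, rfl⟩ := Finset.mem_antidiagonal.1 hp
    show F.coeff p.1 (G.coeff p.2 v) = F.coeff p.1 (G.coeff p.2 1) * _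
    rw [hF _ (G.coeff p.2 v), hF _ (G.coeff p.2 1), hG _ v, zpow_add, map_mul, mul_assoc]; rfl
  one_mem' := by
    intro i v
    by_cases h : i = 0 <;> simp [HahnSeries.coeff_one, h]
  add_mem' := by
    intro F G hF hG i v
    show F.coeff i v + G.coeff i v = (F.coeff i 1 + G.coeff i 1) * _
    rw [hF i v, hG i v, add_mul]
  zero_mem' := by intro i v; simp
  neg_mem' := by
    intro F hF i v
    show -F.coeff i v = -F.coeff i 1 * _
    rw [hF i v, neg_mul]

def cS : S φ ≃+ LaurentSeries A where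
  toFun F := ⟨fun i => F.1.coeff i 1, F.1.isPWO_support.mono fun i hi h => hi (by simp [h])⟩
  invFun f := ⟨⟨fun i => op φ i (f.coeff i), f.isPWO_support.mono fun i hi h => hi (by
    ext v; simp [op_apply, h])⟩, fun i v => by simp [op_apply]⟩
  left_inv F := by ext i v; exact (F.2 i v).symm
  right_inv f := by ext i; simp [op_apply]
  map_add' F G := by ext i; rfl

lemma isSL : IsSL A φ (S φ) := by
  refine ⟨cS φ, fun F G n => ?_⟩
  show (F.1 * G.1).coeff n 1 = ∑ᶠ i : ℤ, F.1.coeff i 1 * (φ ^ i) (G.1.coeff (n - i) 1)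
  rw [HahnSeries.coeff_mul, sum_app, finsum_eq_sum_of_support_subset
    (s := (Finset.antidiagonal F.1.isPWO_support G.1.isPWO_support n).image Prod.fst),
    Finset.sum_image]
  · refine Finset.sum_congr rfl fun p hp => ?_
    obtain ⟨-, -, rfl⟩ := Finset.mem_antidiagonal.1 hp
    rw [add_sub_cancel_left, ← F.2]; rfl
  · intro p hp q hq h
    have h1 := (Finset.mem_antidiagonal.1 hp).2.2
    have h2 := (Finset.mem_antidiagonal.1 hq).2.2
    exact Prod.ext h (by have h : p.1 = q.1 := h; omega)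
  · intro i hi
    refine Finset.mem_coe.2 (Finset.mem_image.2 ⟨(i, n - i), Finset.mem_antidiagonal.2
      ⟨fun h => hi (by simp at h; simp [h]), fun h => hi (by simp at h; simp [h]), by simp⟩, rfl⟩)

end model

def A := Fin 5 → ZMod 2

instance : AddCommGroup A := inferInstanceAs (AddCommGroup (Fin 5 → ZMod 2))
instance : Fintype A := inferInstanceAs (Fintype (Fin 5 → ZMod 2))
instance : DecidableEq A := inferInstanceAs (DecidableEq (Fin 5 → ZMod 2))
instance : Mul A := ⟨fun x y => ![x 0 * y 0, x 1 * y 1, x 2 * y 2, x 0 * y 3 + x 3 * y 1,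
  x 0 * y 4 + x 4 * y 2]⟩
instance : One A := ⟨![1, 1, 1, 0, 0]⟩

lemma mul_def (x y : A) : x * y = ![x 0 * y 0, x 1 * y 1, x 2 * y 2, x 0 * y 3 + x 3 * y 1,
  x 0 * y 4 + x 4 * y 2] := rfl
lemma add_def (x y : A) (i : Fin 5) : (x + y) i = x i + y i := rfl
lemma zero_def (i : Fin 5) : (0 : A) i = 0 := rfl

instance : Ring A where
  mul_assoc x y z := by funext i; fin_cases i <;> simp [mul_def] <;> ring
  left_distrib x y z := by funext i; fin_cases i <;> simp [mul_def, add_def] <;> ring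
  right_distrib x y z := by funext i; fin_cases i <;> simp [mul_def, add_def] <;> ring
  zero_mul := by decide +kernel
  mul_zero := by decide +kernel
  one_mul := by decide +kernel
  mul_one := by decide +kernel

def sw (x : A) : A := ![x 0, x 2, x 1, x 4, x 3]

def φ : RingAut A where
  toFun := sw
  invFun := sw
  left_inv := by decide +kernel
  right_inv := by decide +kernel
  map_mul' := by decide +kernel
  map_add' := by decide +kernel

lemma phi_pow (i : ℤ) : φ ^ i = 1 ∨ φ ^ i = φ := by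
  have h : φ * φ = 1 := by ext x; exact φ.left_inv x
  have h' : φ⁻¹ = φ := inv_eq_of_mul_eq_one_right h
  induction i using Int.induction_on with
  | zero => simp
  | succ i ih => rcases ih with e | e <;> simp [zpow_add_one, e, h]
  | pred i ih => rcases ih with e | e <;> rw [zpow_sub_one, e] <;> simp [h, h']

def E (i : Fin 3) : A := Pi.single (Fin.castLE (by norm_num) i) 1

def K (e : A) : Submodule Aᵐᵒᵖ A where
  carrier := {x | e * x = 0}
  add_mem' := fun {x y} hx hy => by simp_all [mul_add]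
  zero_mem' := mul_zero e
  smul_mem' := fun r x hx => by
    show e * (x * r.unop) = 0
    rw [← mul_assoc, hx, zero_mul]

lemma sdA : SD A := by
  refine ⟨Fin 3, fun i => K (1 - E i), fun i => ?_, ?_, fun i F hF G hG H hH => ?_⟩
  · refine Disjoint.mono_right (c := K (E i)) (iSup₂_le fun j hj x hx => ?_) ?_
    · exact (by decide +kernel : ∀ i j : Fin 3, j ≠ i → ∀ x, (1 - E j) * x = 0 → E i * x = 0) i j hj x hx
    · rw [Submodule.disjoint_def]
      exact (by decide +kernel : ∀ i : Fin 3, ∀ x, (1 - E i) * x = 0 → E i * x = 0 → x = 0) i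
  · rw [eq_top_iff]
    intro x _
    rw [(by decide +kernel : ∀ x : A, x = ∑ i, E i * x) x]
    exact Submodule.sum_mem _ fun i _ => Submodule.mem_iSup_of_mem i
      ((by decide +kernel : ∀ i : Fin 3, ∀ x, (1 - E i) * (E i * x) = 0) i x)
  · refine le_antisymm ?_ (le_inf_sup)
    rintro x ⟨hx, hx'⟩
    obtain ⟨g, hg, h, hh, rfl⟩ := Submodule.mem_sup.1 hx'
    have key : ∀ i : Fin 3, ∀ g, (1 - E i) * g = 0 → ∀ h, (1 - E i) * h = 0 → ∃ r,
      (∃ s, (g + h) * r = g * s) ∧ ∃ s, (g + h) * (1 - r) = h * s := by decide +kernel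
    obtain ⟨r, ⟨s, e1⟩, t, e2⟩ := key i g (hG hg) h (hH hh)
    rw [show g + h = (g + h) * r + (g + h) * (1 - r) by rw [← mul_add]; simp]
    exact Submodule.add_mem_sup ⟨F.smul_mem (MulOpposite.op r) hx, e1 ▸ G.smul_mem (MulOpposite.op s) hg⟩
      ⟨F.smul_mem (MulOpposite.op _) hx, e2 ▸ H.smul_mem (MulOpposite.op t) hh⟩

def a : A := ![0, 0, 0, 1, 0]
def b : A := ![0, 0, 0, 0, 1]

lemma notSD (R : Type) [Ring R] (h : IsSL A φ R) : ¬SD R := by
  obtain ⟨c, hc⟩ := h
  rintro ⟨ι, D, -, hD, hd⟩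
  -- left multiplication by a series with some nonzero zeroth coordinate is injective on the radical
  have inj : ∀ d j : R, (∃ i, (c d).coeff i 0 ≠ 0) → (∀ i, (1 - E 0) * (c j).coeff i = 0 ∧
      (c j).coeff i 0 = 0) → d * j = 0 → j = 0 := by
    intro d j hd hj e
    by_contra h0
    have h1 : c j ≠ 0 := by simpa using h0
    have hw : {i | (c d).coeff i 0 ≠ 0}.IsWF := (c d).isWF_support.mono fun i hi h => hi (by
      rw [h]; rfl)
    set m := hw.min hd
    have := hc d j (m + (c j).order)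
    rw [e, finsum_eq_single _ m, add_sub_cancel_left] at this
    · have k : ∀ x y : A, x 0 ≠ 0 → y ≠ 0 → ((1 - E 0) * y = 0 ∧ y 0 = 0) →
        x * y ≠ 0 ∧ x * φ y ≠ 0 := by decide +kernel
      have k2 := k _ _ (hw.min_mem hd) (HahnSeries.coeff_order_eq_zero.not.2 h1) (hj _)
      rcases phi_pow m with e | e <;> rw [e] at this
      · exact k2.1 (by simpa using this.symm)
      · exact k2.2 (by simpa using this.symm)
    · intro i hi
      rcases lt_or_gt_of_ne hi with hi | hi
      · have k : ∀ x y : A, x 0 = 0 → ((1 - E 0) * y = 0 ∧ y 0 = 0) →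
          x * y = 0 ∧ x * φ y = 0 := by decide +kernel
        have k2 := k ((c d).coeff i) _ (by by_contra h; exact hw.not_lt_min hd h hi)
          (hj (m + (c j).order - i))
        rcases phi_pow i with e | e <;> rw [e]
        exacts [k2.1, k2.2]
      · rw [HahnSeries.coeff_eq_zero_of_lt_order (x := c j) (by omega)]; simp
  have sg : ∀ (x : A) (i : ℤ) (r : R) (n : ℤ), (c (c.symm (HahnSeries.single i x) * r)).coeff n =
      x * (φ ^ i) ((c r).coeff (n - i)) := by
    intro x i r n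
    rw [hc, finsum_eq_single _ i fun j hj => by simp [hj]]; simp
  set α := c.symm (HahnSeries.single 0 a)
  set β := c.symm (HahnSeries.single 1 b)
  have sa : ∀ r n, (c (α * r)).coeff n = a * (c r).coeff n := fun r n => by simpa using sg a 0 r n
  have sb : ∀ r n, (c (β * r)).coeff n = b * φ ((c r).coeff (n - 1)) := fun r n => by
    simpa using sg b 1 r n
  obtain ⟨i, d, hdi, hd0⟩ : ∃ i, ∃ d ∈ D i, ∃ n, (c d).coeff n 0 ≠ 0 := by
    by_contra hh
    push Not at hh
    have : c.symm (HahnSeries.single 0 1) ∈ ⨆ i, D i := hD ▸ trivial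
    have := Submodule.iSup_induction D (motive := fun r => ∀ n, (c r).coeff n 0 = 0) this hh
      (fun n => by simp [zero_def]) (fun x y hx hy n => by simp [add_def, hx, hy]) 0
    simp only [AddEquiv.apply_symm_apply, HahnSeries.coeff_single_same] at this
    exact absurd this (by decide)
  have le : ∀ x : R, Submodule.span Rᵐᵒᵖ {d * x} ≤ D i := fun x =>
    (Submodule.span_singleton_le_iff_mem _ _).2 ((D i).smul_mem (MulOpposite.op x) hdi)
  have h1 : d * (α + β) ∈ Submodule.span Rᵐᵒᵖ {d * (α + β)} ⊓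
      (Submodule.span Rᵐᵒᵖ {d * α} ⊔ Submodule.span Rᵐᵒᵖ {d * β}) :=
    ⟨Submodule.mem_span_singleton_self _, mul_add d α β ▸ Submodule.add_mem_sup
      (Submodule.mem_span_singleton_self _) (Submodule.mem_span_singleton_self _)⟩
  rw [hd i _ (le _) _ (le _) _ (le _)] at h1
  obtain ⟨u, ⟨u1, u2⟩, v, ⟨v1, v2⟩, e⟩ := Submodule.mem_sup.1 h1
  obtain ⟨r, rfl⟩ := Submodule.mem_span_singleton.1 u1
  obtain ⟨s, hs⟩ := Submodule.mem_span_singleton.1 u2
  obtain ⟨r', rfl⟩ := Submodule.mem_span_singleton.1 v1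
  obtain ⟨s', hs'⟩ := Submodule.mem_span_singleton.1 v2
  simp only [MulOpposite.smul_eq_mul_unop] at e hs hs'
  generalize r.unop = r, s.unop = s, r'.unop = r', s'.unop = s' at *
  have J : ∀ p q : R, d * (α * p + β * q) = 0 → ∀ n, (c p).coeff n 1 = 0 ∧ (c q).coeff n 1 = 0 := by
    intro p q h n
    have k : ∀ x y : A, ((1 - E 0) * (a * x + b * φ y) = 0 ∧ (a * x + b * φ y) 0 = 0) ∧
      (a * x + b * φ y = 0 → x 1 = 0 ∧ y 1 = 0) := by decide +kernel
    have := inj d _ hd0 (fun i => by rw [map_add, HahnSeries.coeff_add, sa, sb]; exact (k _ _).1) h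
    have h2 : ∀ n, a * (c p).coeff n + b * φ ((c q).coeff (n - 1)) = 0 := fun n => by
      rw [← sa, ← sb, ← HahnSeries.coeff_add, ← map_add, this]; simp
    exact ⟨((k _ _).2 (h2 n)).1, by simpa using ((k _ _).2 (h2 (n + 1))).2⟩
  have j1 := J (r - s) r (by rw [← sub_eq_zero.2 hs.symm]; noncomm_ring)
  have j2 := J r' (r' - s') (by rw [← sub_eq_zero.2 hs'.symm]; noncomm_ring)
  have j3 := J (r + r' - 1) (r + r' - 1) (by rw [← sub_eq_zero.2 e]; noncomm_ring)
  have j4 := sa 1 0
  have j5 := (j3 0).1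
  rw [map_sub, map_add, HahnSeries.coeff_sub, HahnSeries.coeff_add] at j5
  simp only [mul_one, α, AddEquiv.apply_symm_apply, HahnSeries.coeff_single_same] at j4
  exact (by decide +kernel : ∀ x y z : A, x 1 = 0 → y 1 = 0 → (x + y - z) 1 = 0 → a ≠ a * z)
    _ _ _ (j1 0).2 (j2 0).1 j5 j4

theorem result : ∃ (A : Type) (_ : Ring A) (φ : RingAut A) (R : Type) (_ : Ring R),
    SD A ∧ IsArtinian Aᵐᵒᵖ A ∧ IsSL A φ R ∧ ¬SD R :=
  ⟨A, inferInstance, φ, S φ, inferInstance, sdA, inferInstance, isSL φ, notSD _ (isSL φ)⟩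

end Pool.Agent.Results.MP_d4f5ca_al.Cex
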